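import Pool.Agent.Helper32_OMP.Stmts

/-!
# Removing finitely many points (module AWAY)
-/

set_option autoImplicit false
set_option linter.unusedVariables false

namespace Pool.Agent.Helper32_OMP.H84

open PowerSeries Finset Pool.Agent.Helper6_Mono Pool.Agent.Helper32_OMP

theorem away : AwayStmt := by
  classical
  intro k _ σ _ R _ L ψ T
  let q : T × σ → MvPolynomial σ k := fun t =>
    MvPolynomial.X t.2 - MvPolynomial.C ((t.1 : σ → k) t.2)
  have hq : ∀ {S : Type} [CommRing S] [Algebra k S] (y : σ → S) (t : T × σ),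
      MvPolynomial.aeval y (q t) = y t.2 - algebraMap k S ((t.1 : σ → k) t.2) := by
    intro S _ _ y t
    simp only [q, map_sub, MvPolynomial.aeval_X, MvPolynomial.algHom_C]
  have hY : FT (affY k σ (0 : QZ)).F := FT.affY (k := k) (σ := σ) (0 : QZ)
  have hP : ∀ p : σ → k, FT (ptP QZ p).F := fun p => FT.one
  have h1 := ψ.torus hY (fun t => pfn (affY k σ (0 : QZ)) (q t) (hom_zero (q t))) univ
  rw [powerset_univ] at h1
  let s : Finset (T × σ) → R := fun V =>
    ψ.χ (polZ (affY k σ (0 : QZ)) q (fun t => hom_zero _) V)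
  have hs0 : ∀ (V : Finset (T × σ)) (p p' : T), p ≠ p' → (∀ l, (p, l) ∉ V) →
      (∀ l, (p', l) ∉ V) → s V = 0 := by
    intro V p p' hpp hp hp'
    refine ψ.empty (FT.tor hY _ _ _) fun S _ _ x => ?_
    obtain ⟨l, hl⟩ : ∃ l, (p : σ → k) l ≠ (p' : σ → k) l := by
      by_contra hcon
      push Not at hcon
      exact hpp (Subtype.ext (funext hcon))
    have e1 := (x.2 (p, l) (mem_univ _)).2 (hp l)
    have e2 := (x.2 (p', l) (mem_univ _)).2 (hp' l)
    change MvPolynomial.aeval ((affY k σ (0 : QZ)).base x.1) (q (p, l)) = 0 at e1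
    change MvPolynomial.aeval ((affY k σ (0 : QZ)).base x.1) (q (p', l)) = 0 at e2
    rw [hq] at e1 e2
    have e3 : algebraMap k S ((p : σ → k) l - (p' : σ → k) l) = 0 := by
      rw [map_sub]
      have : algebraMap k S ((p : σ → k) l) - algebraMap k S ((p' : σ → k) l)
          = ((affY k σ (0 : QZ)).base x.1 l - algebraMap k S ((p' : σ → k) l))
            - ((affY k σ (0 : QZ)).base x.1 l - algebraMap k S ((p : σ → k) l)) := by ring
      rw [this, e1, e2, sub_zero]
    have e4 : IsUnit (algebraMap k S ((p : σ → k) l - (p' : σ → k) l)) :=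
      (IsUnit.mk0 _ (sub_ne_zero.2 hl)).map _
    rw [e3, isUnit_zero_iff] at e4
    exact e4.symm
  have h2 : ∀ p : T, ψ.χ (ptP QZ (p : σ → k)) = ∑ V, if (∀ l, (p, l) ∉ V) then s V else 0 := by
    intro p
    rw [ψ.torus (hP p) (fun t => pfn (ptP QZ (p : σ → k)) (q t) (hom_zero (q t))) univ,
      powerset_univ]
    refine sum_congr rfl fun V _ => ?_
    split_ifs with hV
    · refine ψ.iso (FT.tor (hP p) _ _ _) (OIso.mk' (fun S _ _ x =>
        ⟨fun l => algebraMap k S ((p : σ → k) l), x.2⟩) (fun S _ _ y => ⟨(), ?_⟩) ?_ ?_ ?_ ?_)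
      · have hy : (fun l => algebraMap k S ((p : σ → k) l)) = y.1 := by
          funext l
          have e1 := (y.2 (p, l) (mem_univ _)).2 (hV l)
          change MvPolynomial.aeval ((affY k σ (0 : QZ)).base y.1) (q (p, l)) = 0 at e1
          rw [hq] at e1
          exact (sub_eq_zero.1 e1).symm
        intro t ht
        have e2 := y.2 t ht
        change (t ∈ V → IsUnit (MvPolynomial.aeval (fun l => algebraMap k S ((p : σ → k) l)) (q t)))
          ∧ (t ∉ V → MvPolynomial.aeval (fun l => algebraMap k S ((p : σ → k) l)) (q t) = 0)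
        rw [hy]
        exact e2
      · intro S _ _ x
        rfl
      · intro S _ _ y
        refine Subtype.ext ?_
        funext l
        have e1 := (y.2 (p, l) (mem_univ _)).2 (hV l)
        change MvPolynomial.aeval ((affY k σ (0 : QZ)).base y.1) (q (p, l)) = 0 at e1
        rw [hq] at e1
        exact (sub_eq_zero.1 e1).symm
      · intro S S' _ _ _ _ φ c x
        refine Subtype.ext ?_
        funext l
        show algebraMap k S' ((p : σ → k) l) = chr c 0 * φ (algebraMap k S ((p : σ → k) l))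
        rw [chr_zero, one_mul, AlgHom.commutes]
      · intro S _ _ x b
        rfl
    · push Not at hV
      obtain ⟨l, hl⟩ := hV
      refine ψ.empty (FT.tor (hP p) _ _ _) fun S _ _ x => ?_
      have e1 := (x.2 (p, l) (mem_univ _)).1 hl
      change IsUnit (MvPolynomial.aeval (fun l => algebraMap k S ((p : σ → k) l)) (q (p, l))) at e1
      rw [hq, sub_self, isUnit_zero_iff] at e1
      exact e1.symm
  have h3 : ∑ p ∈ T, ψ.χ (ptP QZ p) = ∑ p : T, ψ.χ (ptP QZ (p : σ → k)) :=
    (sum_coe_sort T fun p => ψ.χ (ptP QZ p)).symm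
  rw [h3, sum_congr rfl fun p _ => h2 p, sum_comm, sum_filter, ← sum_add_distrib]
  rw [h1]
  refine sum_congr rfl fun V _ => ?_
  change s V = (∑ p : T, if (∀ l, (p, l) ∉ V) then s V else 0)
    + if (∀ p : T, ∃ l, (p, l) ∈ V) then s V else 0
  by_cases hV : ∀ p : T, ∃ l, (p, l) ∈ V
  · rw [if_pos hV, sum_eq_zero, zero_add]
    intro p _
    rw [if_neg]
    intro h
    obtain ⟨l, hl⟩ := hV p
    exact h l hl
  · rw [if_neg hV, add_zero]
    push Not at hV
    obtain ⟨p, hp⟩ := hV
    rw [sum_eq_single p]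
    · rw [if_pos hp]
    · intro p' _ hpp
      split_ifs with hp'
      · exact hs0 V p p' hpp.symm hp hp'
      · rfl
    · intro h
      exact absurd (mem_univ _) h

end Pool.Agent.Helper32_OMP.H84
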