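import Pool.Agent.Helper32_OMP.Stmts

/-!
# Strata of jets with the right orders (module CISO)
-/

set_option autoImplicit false
set_option linter.unusedVariables false
set_option linter.unusedSectionVars false

namespace Pool.Agent.Helper32_OMP.H84

open PowerSeries Finset Pool.Agent.Helper6_Mono Pool.Agent.Helper32_OMP

variable {k : Type} [Field k] {σ ι : Type}

theorem coeff_zero_evt {S : Type} [CommRing S] [Algebra k S] (F : MvPolynomial (Option σ) k)
    (γ : σ → S⟦X⟧) (y : σ → S) (hy : ∀ l, coeff 0 (γ l) = y l) :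
    coeff 0 (evt F γ) = MvPolynomial.aeval y (at0 F) := by
  induction F using MvPolynomial.induction_on with
  | C a =>
    rw [evt, at0, MvPolynomial.algHom_C, MvPolynomial.algHom_C, AlgHom.commutes,
      PowerSeries.algebraMap_apply, coeff_zero_C]
  | add p q hp hq =>
    rw [evt, map_add, map_add]
    rw [evt] at hp hq
    rw [hp, hq, at0, at0, at0, map_add, map_add]
  | mul_X p o hp =>
    rw [evt, map_mul, MvPolynomial.aeval_X, coeff_zero_eq_constantCoeff_apply, map_mul,
      ← coeff_zero_eq_constantCoeff_apply, ← coeff_zero_eq_constantCoeff_apply]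
    rw [evt] at hp
    rw [hp, at0, at0, map_mul, map_mul, MvPolynomial.aeval_X]
    congr 1
    cases o with
    | none =>
      show coeff 0 (PowerSeries.X : S⟦X⟧) = MvPolynomial.aeval y 0
      rw [coeff_zero_X, map_zero]
    | some l =>
      show coeff 0 (γ l) = MvPolynomial.aeval y (MvPolynomial.X l)
      rw [MvPolynomial.aeval_X, hy]

open scoped Classical in
/-- the coefficients of the series of the equation -/
theorem fser_coeff [Fintype ι] (D : LP k σ ι) {S : Type} [CommRing S] [Algebra k S]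
    (I : Finset ι) (e : I → ℕ) (he : ∑ i : I, D.a i * e i = D.M) (γ : σ → S⟦X⟧)
    (hd : ∀ i : I, (X : S⟦X⟧) ^ (e i) ∣ evt (D.F i) γ) :
    (∀ j < D.M, coeff j (D.fser γ) = 0) ∧
      coeff D.M (D.fser γ) = algebraMap k S D.c *
        (∏ i ∈ univ \ I, coeff 0 (evt (D.F i) γ) ^ D.a i) *
          ∏ i : I, coeff (e i) (evt (D.F i) γ) ^ D.a i := by
  choose w hw using hd
  have h1 : D.fser γ = X ^ D.M * (C (algebraMap k S D.c) *
      (∏ i ∈ univ \ I, evt (D.F i) γ ^ D.a i) * ∏ i : I, w i ^ D.a i) := by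
    have h2 : ∏ i, evt (D.F i) γ ^ D.a i
        = (∏ i ∈ univ \ I, evt (D.F i) γ ^ D.a i) * ∏ i ∈ I, evt (D.F i) γ ^ D.a i :=
      (prod_sdiff (subset_univ I)).symm
    have h3 : ∏ i ∈ I, evt (D.F i) γ ^ D.a i = ∏ i : I, evt (D.F i) γ ^ D.a i :=
      (prod_coe_sort I fun i => evt (D.F i) γ ^ D.a i).symm
    have h4 : ∏ i : I, evt (D.F i) γ ^ D.a i = X ^ D.M * ∏ i : I, w i ^ D.a i := by
      rw [← he, ← prod_pow_eq_pow_sum, ← prod_mul_distrib]
      refine prod_congr rfl fun i _ => ?_
      rw [hw i, mul_pow, ← pow_mul, mul_comm (e i)]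
    rw [LP.fser, h2, h3, h4]
    ring
  constructor
  · intro j hj
    rw [h1, coeff_X_pow_mul', if_neg (by omega)]
  · rw [h1, coeff_X_pow_mul', if_pos le_rfl, Nat.sub_self, coeff_zero_eq_constantCoeff_apply,
      map_mul, map_mul, map_prod, map_prod, constantCoeff_C]
    congr 1
    · congr 1
      refine prod_congr rfl fun i _ => ?_
      rw [map_pow, ← coeff_zero_eq_constantCoeff_apply]
    · refine prod_congr rfl fun i _ => ?_
      rw [map_pow, ← coeff_zero_eq_constantCoeff_apply, hw i, coeff_X_pow_mul', if_pos le_rfl,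
        Nat.sub_self]

section ciso

variable [Fintype σ] [Fintype ι] {D : LP k σ ι} {Z : Over k QZ σ (fun _ => D.θ)} {I : Finset ι}
  {τ : I ↪ σ} {u : I → Fin (D.M + 1)}

/-- the series of a point -/
noncomputable abbrev gam {S : Type} [CommRing S] [Algebra k S]
    (x : (ords (D.K.app Z) D.M (hco D Z I) u).F.obj S) : σ → S⟦X⟧ :=
  fun l => C (Z.base x.1.1.1 l) + x.1.1.2.1 l

theorem gam_zero {S : Type} [CommRing S] [Algebra k S]
    (x : (ords (D.K.app Z) D.M (hco D Z I) u).F.obj S) (l : σ) :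
    coeff 0 (gam x l) = Z.base x.1.1.1 l := by
  have h : coeff 0 (x.1.1.2.1 l) = 0 := x.1.1.2.2 l 0 (fun h => absurd h.1 (by norm_num))
  show coeff 0 (C (Z.base x.1.1.1 l) + x.1.1.2.1 l) = _
  rw [map_add, h, add_zero, coeff_zero_C]

theorem gam_dvd (hc : IsCell D Z I τ) (hu : ∀ i, (u i : ℕ) < D.M) {S : Type} [CommRing S]
    [Algebra k S] (x : (ords (D.K.app Z) D.M (hco D Z I) u).F.obj S) (i : I) :
    (X : S⟦X⟧) ^ ((u i : ℕ) + 1) ∣ evt (D.F i) (gam x) := by
  rw [X_pow_dvd_iff]
  intro j hj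
  rcases j with _ | j
  · rw [coeff_zero_evt (D.F i) (gam x) _ (gam_zero x)]
    exact hc.zero i i.2 S x.1.1.1
  · exact (x.2 i).1 j (by omega)

/-- the family of the free coefficients -/
noncomputable def rho (M : ℕ) (I : Finset ι) (τ : I ↪ σ) (u : I → ℕ) {S : Type} [CommRing S]
    (δ : σ → S⟦X⟧) (v : I → S⟦X⟧) : σ ⊕ I → S⟦X⟧ := by
  classical
  exact fun t => PowerSeries.mk fun j =>
    if (t, j) ∈ Dfree M I τ u then coeff j (Sum.elim δ v t) else 0

theorem coeff_rho_mem {M : ℕ} {I : Finset ι} {τ : I ↪ σ} {u : I → ℕ} {S : Type} [CommRing S]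
    (δ : σ → S⟦X⟧) (v : I → S⟦X⟧) {t : σ ⊕ I} {j : ℕ} (h : (t, j) ∈ Dfree M I τ u) :
    coeff j (rho M I τ u δ v t) = coeff j (Sum.elim δ v t) := by
  rw [rho, coeff_mk, if_pos h]

theorem coeff_rho_not_mem {M : ℕ} {I : Finset ι} {τ : I ↪ σ} {u : I → ℕ} {S : Type} [CommRing S]
    (δ : σ → S⟦X⟧) (v : I → S⟦X⟧) {t : σ ⊕ I} {j : ℕ} (h : (t, j) ∉ Dfree M I τ u) :
    coeff j (rho M I τ u δ v t) = 0 := by
  rw [rho, coeff_mk, if_neg h]

open scoped Classical in
/-- the map from the stratum to the torus times the free coefficients -/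
noncomputable def toTor (hc : IsCell D Z I τ) (hu : ∀ i, (u i : ℕ) < D.M)
    (he : ∑ i : I, D.a i * ((u i : ℕ) + 1) = D.M) {S : Type} [CommRing S] [Algebra k S]
    (x : (ords (D.K.app Z) D.M (hco D Z I) u).F.obj S) :
    ((D.Tor Z I (fun i => (u i : ℕ) + 1) he).times
        (serGF k (Dfree D.M I τ fun i => (u i : ℕ)) (Sum.elim (fun _ => D.θ) fun i : I => D.ϑ i)
          D.ω)).F.obj S :=
  (⟨(x.1.1.1, fun i => coeff ((u i : ℕ) + 1) (evt (D.F i) (gam x))), by
    have h1 := (fser_coeff D I (fun i => (u i : ℕ) + 1) he (gam x) (gam_dvd hc hu x)).2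
    have h2 := x.1.2 ⟨D.M, Nat.lt_succ_self _⟩
    have h3 : coeff D.M (D.fser (gam x)) = 1 := by
      have h4 : coeff D.M (D.fser (gam x)) - (if D.M = D.M then 1 else 0) = 0 := h2
      rw [if_pos rfl] at h4
      exact sub_eq_zero.1 h4
    rw [h3] at h1
    show algebraMap k S D.c *
      (∏ i ∈ univ \ I, MvPolynomial.aeval (Z.base x.1.1.1) (at0 (D.F i)) ^ D.a i) *
        ∏ i : I, coeff ((u i : ℕ) + 1) (evt (D.F i) (gam x)) ^ D.a i = 1
    rw [h1]
    congr 2
    refine prod_congr rfl fun i _ => ?_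
    rw [coeff_zero_evt (D.F i) (gam x) _ (gam_zero x)]⟩,
   ⟨rho D.M I τ (fun i => (u i : ℕ)) x.1.1.2.1 (fun i => evt (D.F i) (gam x)),
    fun i j h => coeff_rho_not_mem _ _ h⟩)

theorem ciso (hH : HensStmt) : CisoStmt := by
  classical
  intro k _ σ ι _ _ D ha hcn Z I τ hc u hu he
  refine OIso.ofBij (fun S _ _ x => toTor hc hu he x) ?_ ?_ ?_
  · intro S S' _ _ _ _ φ c x
    have hg : gam ((ords (D.K.app Z) D.M (hco D Z I) u).F.tw φ c x)
        = fun l => C (chr c D.θ) * twS D.ω φ c (gam x l) := by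
      funext l
      show C (Z.base (Z.F.tw φ c x.1.1.1) l) + C (chr c D.θ) * twS D.ω φ c (x.1.1.2.1 l) = _
      rw [Z.base_tw, map_add, mul_add, twS_C, map_mul]
    have hev : ∀ i, evt (D.F i) (gam ((ords (D.K.app Z) D.M (hco D Z I) u).F.tw φ c x))
        = C (chr c (D.ϑ i)) * twS D.ω φ c (evt (D.F i) (gam x)) := by
      intro i
      rw [hg, evt_tw (D.hF i)]
    refine Prod.ext (Subtype.ext (Prod.ext rfl ?_)) (Subtype.ext ?_)
    · funext i
      show coeff ((u i : ℕ) + 1)
          (evt (D.F i) (gam ((ords (D.K.app Z) D.M (hco D Z I) u).F.tw φ c x)))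
        = chr c (D.ϑ i + ((u i : ℕ) + 1) • D.ω) * φ (coeff ((u i : ℕ) + 1) (evt (D.F i) (gam x)))
      rw [hev, coeff_C_mul, coeff_twS, chr_add, mul_assoc]
    · funext t
      ext j
      show coeff j (rho D.M I τ (fun i => (u i : ℕ))
          (fun l => C (chr c D.θ) * twS D.ω φ c (x.1.1.2.1 l))
          (fun i => evt (D.F i) (gam ((ords (D.K.app Z) D.M (hco D Z I) u).F.tw φ c x))) t)
        = coeff j (C (chr c (Sum.elim (fun _ => D.θ) (fun i : I => D.ϑ i) t)) * twS D.ω φ c
          (rho D.M I τ (fun i => (u i : ℕ)) x.1.1.2.1 (fun i => evt (D.F i) (gam x)) t))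
      rw [coeff_C_mul, coeff_twS]
      by_cases h : (t, j) ∈ Dfree D.M I τ (fun i => (u i : ℕ))
      · rw [coeff_rho_mem _ _ h, coeff_rho_mem _ _ h]
        cases t with
        | inl l =>
          show coeff j (C (chr c D.θ) * twS D.ω φ c (x.1.1.2.1 l)) = _
          rw [coeff_C_mul, coeff_twS]
          rfl
        | inr i =>
          show coeff j (evt (D.F i) (gam ((ords (D.K.app Z) D.M (hco D Z I) u).F.tw φ c x))) = _
          rw [hev, coeff_C_mul, coeff_twS]
          rfl
      · rw [coeff_rho_not_mem _ _ h, coeff_rho_not_mem _ _ h, map_zero, mul_zero, mul_zero]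
  · intro S _ _
    have key : ∀ (z : Z.F.obj S) (v : I → S⟦X⟧) (δ : σ → S⟦X⟧), (∀ i, coeff 0 (v i) = 0) →
        ∃! γ : σ → S⟦X⟧, (∀ l j, D.M < j → coeff j (γ l) = 0) ∧
          (∀ l, coeff 0 (γ l) = Z.base z l) ∧
          (∀ l, l ∉ Set.range τ → ∀ j, 1 ≤ j → j ≤ D.M → coeff j (γ l) = coeff j (δ l)) ∧
          ∀ i : I, ∀ j ≤ D.M, coeff j (evt (D.F i) γ) = coeff j (v i) := by
      intro z v δ hv
      exact hH k σ I (fun i => D.F i) τ S (Z.base z) (fun i => hc.zero i i.2 S z)
        (hc.det S z) D.M v δ hv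
    constructor
    · intro x x' hxx
      have e1 : x.1.1.1 = x'.1.1.1 := congrArg (fun p => p.1.1.1) hxx
      have e2 : ∀ i, coeff ((u i : ℕ) + 1) (evt (D.F i) (gam x))
          = coeff ((u i : ℕ) + 1) (evt (D.F i) (gam x')) := fun i =>
        congrFun (congrArg (fun p => p.1.1.2) hxx) i
      have e3 : ∀ t, rho D.M I τ (fun i => (u i : ℕ)) x.1.1.2.1 (fun i => evt (D.F i) (gam x)) t
          = rho D.M I τ (fun i => (u i : ℕ)) x'.1.1.2.1 (fun i => evt (D.F i) (gam x')) t :=
        fun t => congrFun (congrArg (fun p => p.2.1) hxx) t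
      obtain ⟨γ, -, hγ⟩ := key x.1.1.1 (fun i => evt (D.F i) (gam x)) x.1.1.2.1 (fun i => by
        rw [coeff_zero_evt (D.F i) (gam x) _ (gam_zero x)]
        exact hc.zero i i.2 S x.1.1.1)
      have hcf : ∀ (x : (ords (D.K.app Z) D.M (hco D Z I) u).F.obj S) l j, 1 ≤ j →
          coeff j (gam x l) = coeff j (x.1.1.2.1 l) := by
        intro x l j hj
        show coeff j (C (Z.base x.1.1.1 l) + x.1.1.2.1 l) = _
        rw [map_add, coeff_C, if_neg (by omega), zero_add]
      have hbig : ∀ (x : (ords (D.K.app Z) D.M (hco D Z I) u).F.obj S) l j, D.M < j →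
          coeff j (gam x l) = 0 := by
        intro x l j hj
        rw [hcf x l j (by omega)]
        exact x.1.1.2.2 l j (fun h => absurd h.2 (by show ¬ j ≤ D.M; omega))
      have g1 := hγ (gam x) ⟨hbig x, gam_zero x, fun l hl j h1 h2 => hcf x l j h1,
        fun i j hj => rfl⟩
      have g2 := hγ (gam x') ⟨hbig x', fun l => by rw [gam_zero, e1], fun l hl j h1 h2 => by
          rw [hcf x' l j h1]
          have h3 : ((Sum.inl l : σ ⊕ I), j) ∈ Dfree D.M I τ (fun i => (u i : ℕ)) :=
            ⟨h2, Or.inl ⟨l, rfl, hl, h1⟩⟩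
          have h4 := congrArg (coeff j) (e3 (Sum.inl l))
          rw [coeff_rho_mem _ _ h3, coeff_rho_mem _ _ h3] at h4
          exact h4.symm,
        fun i j hj => by
          rcases lt_trichotomy j ((u i : ℕ) + 1) with h | h | h
          · have h5 := X_pow_dvd_iff.1 (gam_dvd hc hu x i) j h
            have h6 := X_pow_dvd_iff.1 (gam_dvd hc hu x' i) j h
            rw [h5, h6]
          · rw [h]
            exact (e2 i).symm
          · have h3 : ((Sum.inr i : σ ⊕ I), j) ∈ Dfree D.M I τ (fun i => (u i : ℕ)) :=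
              ⟨hj, Or.inr ⟨i, rfl, h⟩⟩
            have h4 := congrArg (coeff j) (e3 (Sum.inr i))
            rw [coeff_rho_mem _ _ h3, coeff_rho_mem _ _ h3] at h4
            exact h4.symm⟩
      have g3 : gam x = gam x' := g1.trans g2.symm
      refine Subtype.ext (Subtype.ext (Prod.ext e1 (Subtype.ext ?_)))
      funext l
      have h1 : C (Z.base x.1.1.1 l) + x.1.1.2.1 l = C (Z.base x'.1.1.1 l) + x'.1.1.2.1 l :=
        congrFun g3 l
      rw [e1] at h1
      exact add_left_cancel h1
    · intro q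
      obtain ⟨⟨⟨z, w⟩, hq⟩, ⟨ρ, hρ⟩⟩ := q
      change algebraMap k S D.c *
        (∏ i ∈ univ \ I, MvPolynomial.aeval (Z.base z) (at0 (D.F i)) ^ D.a i) *
          ∏ i : I, w i ^ D.a i = 1 at hq
      have hwu : ∀ i, IsUnit (w i) := by
        intro i
        have h1 : IsUnit (∏ i : I, w i ^ D.a i) := IsUnit.of_mul_eq_one_right _ hq
        have h2 : w i ^ D.a i ∣ ∏ i : I, w i ^ D.a i := dvd_prod_of_mem _ (mem_univ i)
        exact (isUnit_pow_iff (ha i).ne').1 (isUnit_of_dvd_unit h2 h1)
      let v : I → S⟦X⟧ := fun i => C (w i) * X ^ ((u i : ℕ) + 1) + ρ (Sum.inr i)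
      have hvlow : ∀ i j, j < (u i : ℕ) + 1 → coeff j (v i) = 0 := by
        intro i j hj
        show coeff j (C (w i) * X ^ ((u i : ℕ) + 1) + ρ (Sum.inr i)) = 0
        rw [map_add, coeff_C_mul, coeff_X_pow, if_neg (by omega), mul_zero, zero_add]
        refine hρ _ _ ?_
        rintro ⟨-, ⟨l, hl, -⟩ | ⟨i', hi', h⟩⟩
        · exact absurd hl (by simp)
        · have : i = i' := Sum.inr.inj hi'
          subst this
          change (u i : ℕ) + 1 < j at h
          omega
      have hvmid : ∀ i, coeff ((u i : ℕ) + 1) (v i) = w i := by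
        intro i
        show coeff ((u i : ℕ) + 1) (C (w i) * X ^ ((u i : ℕ) + 1) + ρ (Sum.inr i)) = _
        rw [map_add, coeff_C_mul, coeff_X_pow, if_pos rfl, mul_one]
        rw [hρ _ _ ?_, add_zero]
        rintro ⟨-, ⟨l, hl, -⟩ | ⟨i', hi', h⟩⟩
        · exact absurd hl (by simp)
        · have : i = i' := Sum.inr.inj hi'
          subst this
          change (u i : ℕ) + 1 < (u i : ℕ) + 1 at h
          omega
      have hvhigh : ∀ i j, (u i : ℕ) + 1 < j → coeff j (v i) = coeff j (ρ (Sum.inr i)) := by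
        intro i j hj
        show coeff j (C (w i) * X ^ ((u i : ℕ) + 1) + ρ (Sum.inr i)) = _
        rw [map_add, coeff_C_mul, coeff_X_pow, if_neg (by omega), mul_zero, zero_add]
      obtain ⟨γ, ⟨hγ1, hγ2, hγ3, hγ4⟩, -⟩ := key z v (fun l => ρ (Sum.inl l))
        (fun i => hvlow i 0 (Nat.succ_pos _))
      have hCγ : (fun l => C (Z.base z l) + (γ l - C (Z.base z l))) = γ := by
        funext l
        ring
      have hdvd : ∀ i : I, (X : S⟦X⟧) ^ ((u i : ℕ) + 1) ∣ evt (D.F i) γ := by
        intro i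
        rw [X_pow_dvd_iff]
        intro j hj
        rw [hγ4 i j (by have := hu i; omega), hvlow i j hj]
      obtain ⟨f1, f2⟩ := fser_coeff D I (fun i => (u i : ℕ) + 1) he γ hdvd
      have f3 : coeff D.M (D.fser γ) = 1 := by
        rw [f2, ← hq]
        congr 1
        · congr 1
          refine prod_congr rfl fun i _ => ?_
          rw [coeff_zero_evt (D.F i) γ _ hγ2]
        · refine prod_congr rfl fun i _ => ?_
          rw [hγ4 i _ (by have := hu i; omega), hvmid]
      let x : (ords (D.K.app Z) D.M (hco D Z I) u).F.obj S :=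
        ⟨⟨(z, ⟨fun l => γ l - C (Z.base z l), fun l j h => by
            rcases Nat.eq_zero_or_pos j with h0 | h0
            · subst h0
              rw [map_sub, coeff_zero_C, hγ2, sub_self]
            · rw [map_sub, coeff_C, if_neg (by omega), sub_zero]
              refine hγ1 l j ?_
              by_contra hcon
              exact h ⟨h0, by show j ≤ D.M; omega⟩⟩), fun a => by
          show coeff (a : ℕ) (D.fser fun l => C (Z.base z l) + (γ l - C (Z.base z l)))
            - (if (a : ℕ) = D.M then 1 else 0) = 0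
          rw [hCγ]
          by_cases h : (a : ℕ) = D.M
          · rw [if_pos h, h, f3, sub_self]
          · rw [if_neg h, sub_zero]
            exact f1 a (by have := a.2; omega)⟩, fun i => ⟨fun j hj => by
          show coeff (j + 1) (evt (D.F i) fun l => C (Z.base z l) + (γ l - C (Z.base z l))) = 0
          rw [hCγ, hγ4 i _ (by have := hu i; omega)]
          exact hvlow i _ (by omega), fun h => by
          show IsUnit (coeff ((u i : ℕ) + 1)
            (evt (D.F i) fun l => C (Z.base z l) + (γ l - C (Z.base z l))))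
          rw [hCγ, hγ4 i _ (by have := hu i; omega), hvmid]
          exact hwu i⟩⟩
      have hgx : gam x = γ := hCγ
      refine ⟨x, ?_⟩
      refine Prod.ext (Subtype.ext (Prod.ext rfl ?_)) (Subtype.ext ?_)
      · funext i
        show coeff ((u i : ℕ) + 1) (evt (D.F i) (gam x)) = w i
        rw [hgx, hγ4 i _ (by have := hu i; omega), hvmid]
      · funext t
        ext j
        show coeff j (rho D.M I τ (fun i => (u i : ℕ)) (fun l => γ l - C (Z.base z l))
          (fun i => evt (D.F i) (gam x)) t) = coeff j (ρ t)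
        by_cases h : (t, j) ∈ Dfree D.M I τ (fun i => (u i : ℕ))
        · rw [coeff_rho_mem _ _ h]
          obtain ⟨h0, h1⟩ := h
          change j ≤ D.M at h0
          rcases h1 with ⟨l, hl, hl', hj⟩ | ⟨i, hi, hj⟩
          · change t = Sum.inl l at hl
            change 1 ≤ j at hj
            subst hl
            show coeff j (γ l - C (Z.base z l)) = _
            rw [map_sub, coeff_C, if_neg (by omega), sub_zero, hγ3 l hl' j hj h0]
          · change t = Sum.inr i at hi
            change (u i : ℕ) + 1 < j at hj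
            subst hi
            show coeff j (evt (D.F i) (gam x)) = _
            rw [hgx, hγ4 i j h0, hvhigh i j hj]
        · rw [coeff_rho_not_mem _ _ h, hρ _ _ h]
  · intro S _ _ x b
    rfl

end ciso

end Pool.Agent.Helper32_OMP.H84
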